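import Mathlib
import Pool.Agent.Q259.FR

set_option autoImplicit false

open Finset Polynomial Pool.Agent.Helper353.PST Pool.Agent.Q259.FR

namespace Pool.Agent.Results.MP_33c96f_co.TreeCospectral

/-- Proper fractional revival between the distinct vertices `a` and `b` of `G`. -/
def ProperFR {V : Type} [Fintype V] [DecidableEq V] (G : SimpleGraph V) [DecidableRel G.Adj]
    (a b : V) : Prop :=
  a ≠ b ∧ ∃ τ : ℝ, 0 < τ ∧ ∃ α β : ℂ, α ≠ 0 ∧ β ≠ 0 ∧
    (NormedSpace.exp ((Complex.I * (τ : ℂ)) • G.adjMatrix ℂ)).mulVec (Pi.single a 1) =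
      α • Pi.single a 1 + β • Pi.single b 1

/-- `a` and `b` are cospectral: the graphs `G - a` and `G - b` (induced subgraphs) have adjacency
matrices with the same characteristic polynomial. -/
def Cospectral {V : Type} [Fintype V] [DecidableEq V] (G : SimpleGraph V) [DecidableRel G.Adj]
    (a b : V) : Prop :=
  ((G.induce {v | v ≠ a}).adjMatrix ℝ).charpoly = ((G.induce {v | v ≠ b}).adjMatrix ℝ).charpoly

theorem card_walk_dist {V : Type} [Fintype V] [DecidableEq V] (G : SimpleGraph V)
    [DecidableRel G.Adj] (hG : G.IsTree) (a b : V) :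
    ((G.adjMatrix ℝ) ^ (G.dist a b)) a b = 1 := by
  rw [SimpleGraph.adjMatrix_pow_apply_eq_card_walk]
  obtain ⟨p, hp⟩ := hG.connected.exists_walk_length_eq_dist a b
  have huniq : ∀ q : {q : G.Walk a b | q.length = G.dist a b}, q = ⟨p, hp⟩ := by
    rintro ⟨q, hq⟩
    apply Subtype.ext
    have h1 := q.isPath_of_length_eq_dist hq
    have h2 := p.isPath_of_length_eq_dist hp
    exact (hG.existsUnique_path a b).unique h1 h2
  have : Fintype.card {q : G.Walk a b | q.length = G.dist a b} = 1 :=
    Fintype.card_eq_one_iff.mpr ⟨⟨p, hp⟩, huniq⟩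
  rw [this]
  norm_num

/-- `s² = N s + 1` with a nonzero integer `N` forces `s` to be irrational. -/
theorem irr (s : ℝ) (N : ℤ) (hN : N ≠ 0) (hs : s ^ 2 = N * s + 1) (q : ℚ) : s ≠ q := by
  intro hq
  have h1 : q ^ 2 = N * q + 1 := by
    rw [hq] at hs
    exact_mod_cast hs
  have hint : IsIntegral ℤ q := by
    refine ⟨X ^ 2 - C N * X - 1, ?_, ?_⟩
    · have : (X ^ 2 - C N * X - 1 : ℤ[X]) = X ^ 2 + (-(C N * X) - 1) := by ring
      rw [this]
      refine Polynomial.monic_X_pow_add ?_
      refine lt_of_le_of_lt (Polynomial.degree_sub_le _ _) ?_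
      rw [max_lt_iff]
      constructor
      · rw [Polynomial.degree_neg]
        refine lt_of_le_of_lt (Polynomial.degree_C_mul_X_le N) ?_
        norm_num
      · rw [Polynomial.degree_one]
        norm_num
    · simp only [eval₂_sub, eval₂_pow, eval₂_X, eval₂_mul, eval₂_C, eval₂_one]
      simp only [eq_intCast]
      linarith
  obtain ⟨n, hn⟩ := IsIntegrallyClosed.isIntegral_iff.1 hint
  have hn' : q = n := by rw [← hn]; simp
  rw [hn'] at h1
  have h2 : n ^ 2 = N * n + 1 := by exact_mod_cast h1
  have h3 : n * (n - N) = 1 := by linear_combination h2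
  rcases Int.eq_one_or_neg_one_of_mul_eq_one h3 with h4 | h4
  · rw [h4] at h3; apply hN; linarith
  · rw [h4] at h3; apply hN; linarith

theorem main {V : Type} [Fintype V] [DecidableEq V] (G : SimpleGraph V) [DecidableRel G.Adj]
    (hG : G.IsTree) (a b : V) (hab : a ≠ b) (τ : ℝ) (hτ : 0 < τ) (α β : ℂ) (hα : α ≠ 0)
    (hβ : β ≠ 0)
    (hexp : (NormedSpace.exp ((Complex.I * (τ : ℂ)) • G.adjMatrix ℂ)).mulVec (Pi.single a 1) =
      α • Pi.single a 1 + β • Pi.single b 1) :
    ((G.adjMatrix ℝ).submatrix (Subtype.val : {v // v ≠ a} → V) Subtype.val).charpoly =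
      ((G.adjMatrix ℝ).submatrix (Subtype.val : {v // v ≠ b} → V) Subtype.val).charpoly := by
  classical
  set A : Matrix V V ℝ := G.adjMatrix ℝ with hAdef
  have hA01 : ∀ z w, A z w = if G.Adj z w then 1 else 0 := fun z w => by
    rw [hAdef, SimpleGraph.adjMatrix_apply]
  have hsymm : ∀ z w, A z w = A w z := fun z w => by
    rw [hA01, hA01]; simp only [G.adj_comm]
  have hAt : A.transpose = A := by
    ext z w
    exact hsymm w z
  have hAH : A.IsHermitian := by
    rw [Matrix.IsHermitian, Matrix.conjTranspose_eq_transpose_of_trivial]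
    exact hAt
  obtain ⟨S⟩ := exists_SD A hAH
  set B : Matrix V V ℤ := G.adjMatrix ℤ with hBdef
  have hB : A = B.map (Int.cast : ℤ → ℝ) := by
    ext z w
    rw [hA01, Matrix.map_apply, hBdef, SimpleGraph.adjMatrix_apply]
    split_ifs <;> simp
  have hAC : A.map (fun x : ℝ => (x : ℂ)) = G.adjMatrix ℂ := by
    ext z w
    rw [Matrix.map_apply, hA01, SimpleGraph.adjMatrix_apply]
    split_ifs <;> simp
  have hph : ∀ j, Complex.exp (Complex.I * τ * S.lam j) * S.U j a =
      α * S.U j a + β * S.U j b := by
    apply phase2 S hAt a b τ α β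
    rw [hAC]
    exact hexp
  have hadj_ne : ∀ z w, A z w ≠ 0 → G.Adj z w := by
    intro z w hzw
    by_contra hcon
    rw [hA01, if_neg hcon] at hzw
    exact hzw rfl
  -- the bipartition
  obtain ⟨c⟩ : Nonempty (G.Coloring (Fin 2)) := hG.isAcyclic.colorable_two
  set s : V → ℝ := fun z => if c z = 0 then 1 else -1 with hs
  have hs1 : ∀ z, s z ^ 2 = 1 := fun z => by
    simp only [hs]; split_ifs <;> norm_num
  have hsA : ∀ z w, A z w ≠ 0 → s z * s w = -1 := by
    intro z w hzw
    have h1 := c.valid (hadj_ne z w hzw)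
    simp only [hs]
    by_cases h2 : c z = 0 <;> by_cases h3 : c w = 0
    · exact absurd (h2.trans h3.symm) h1
    · rw [if_pos h2, if_neg h3]; norm_num
    · rw [if_neg h2, if_pos h3]; norm_num
    · exfalso
      apply h1
      have e1 : c z = 1 := by omega
      have e2 : c w = 1 := by omega
      rw [e1, e2]
  have hsab : s a * s b = 1 ∨ s a * s b = -1 := by
    simp only [hs]
    split_ifs <;> norm_num
  -- real and imaginary parts
  have hre : ∀ j, Real.cos (τ * S.lam j) * S.U j a = α.re * S.U j a + β.re * S.U j b := by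
    intro j
    have h1 := congrArg Complex.re (hph j)
    have h2 : Complex.I * τ * S.lam j = ((τ * S.lam j : ℝ) : ℂ) * Complex.I := by push_cast; ring
    rw [h2, Complex.re_mul_ofReal, Complex.exp_ofReal_mul_I_re] at h1
    rw [h1]; simp
  have him : ∀ j, Real.sin (τ * S.lam j) * S.U j a = α.im * S.U j a + β.im * S.U j b := by
    intro j
    have h1 := congrArg Complex.im (hph j)
    have h2 : Complex.I * τ * S.lam j = ((τ * S.lam j : ℝ) : ℂ) * Complex.I := by push_cast; ring
    rw [h2, Complex.im_mul_ofReal, Complex.exp_ofReal_mul_I_im] at h1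
    rw [h1]; simp
  have hc : ∀ z, ∑ j, Real.cos (τ * S.lam j) * (S.U j a * S.U j z) =
      α.re * (if a = z then 1 else 0) + β.re * (if b = z then 1 else 0) := by
    intro z
    rw [← S.compl a z, ← S.compl b z, Finset.mul_sum, Finset.mul_sum, ← Finset.sum_add_distrib]
    refine Finset.sum_congr rfl fun j _ => ?_
    linear_combination (S.U j z) * hre j
  have hsn : ∀ z, ∑ j, Real.sin (τ * S.lam j) * (S.U j a * S.U j z) =
      α.im * (if a = z then 1 else 0) + β.im * (if b = z then 1 else 0) := by
    intro z
    rw [← S.compl a z, ← S.compl b z, Finset.mul_sum, Finset.mul_sum, ← Finset.sum_add_distrib]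
    refine Finset.sum_congr rfl fun j _ => ?_
    linear_combination (S.U j z) * him j
  have hsymc := fun z => sym_fun S s hs1 hsA (fun x => Real.cos (τ * x)) a z
  have hsyms := fun z => sym_fun S s hs1 hsA (fun x => Real.sin (τ * x)) a z
  simp only [mul_neg, Real.cos_neg, Real.sin_neg, neg_mul, Finset.sum_neg_distrib] at hsymc hsyms
  have hαim : α.im = 0 := by
    have h1 := hsyms a
    rw [hsn a, if_pos rfl, if_neg (Ne.symm hab)] at h1
    have h2 := hs1 a
    have h3 : s a * s a = 1 := by rw [← pow_two]; exact h2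
    rw [h3] at h1
    linarith
  have hαr : α = (α.re : ℂ) := Complex.ext rfl (by simp [hαim])
  have hmom := fun F => moment_rel S a b hab τ α β hβ hph F
  rcases hsab with hsab | hsab
  · -- the vertices are in the same part: impossible
    exfalso
    have hβim : β.im = 0 := by
      have h1 := hsyms b
      rw [hsn b, if_neg hab, if_pos rfl, hsab] at h1
      linarith
    have hβr : β = (β.re : ℂ) := Complex.ext rfl (by simp [hβim])
    set x := α.re with hx
    set y := β.re with hy
    have hx0 : x ≠ 0 := by
      intro h; apply hα; rw [hαr, h]; simp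
    have hy0 : y ≠ 0 := by
      intro h; apply hβ; rw [hβr, h]; simp
    have hxy : x ^ 2 + y ^ 2 = 1 := by
      have := norm_one S a b hab τ α β hph
      rw [hαr, hβr, Complex.normSq_ofReal, Complex.normSq_ofReal] at this
      linarith
    -- real form of the phase relations
    have hrel1 : ∀ j, Complex.exp (Complex.I * τ * S.lam j) * S.U j a =
        ((x * S.U j a + y * S.U j b : ℝ) : ℂ) := by
      intro j; rw [hph j, hαr, hβr]; push_cast; ring
    have hrel2 : ∀ j, Complex.exp (Complex.I * τ * S.lam j) * S.U j b =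
        ((y * S.U j a - x * S.U j b : ℝ) : ℂ) := by
      intro j
      rw [phase_b S a b hab τ α β hβ hph j]
      have e1 : starRingEnd ℂ α * β / starRingEnd ℂ β = (x : ℂ) := by
        rw [hαr, hβr, Complex.conj_ofReal, Complex.conj_ofReal]
        have : (y : ℂ) ≠ 0 := by exact_mod_cast hy0
        field_simp
      rw [e1, hβr]
      push_cast
      ring
    have hmomr : ∀ F : ℝ → ℝ, y * (Fn S F a a - Fn S F b b) = 2 * x * Fn S F a b := by
      intro F
      have h1 := hmom F
      have e1 : starRingEnd ℂ α * β / starRingEnd ℂ β = (x : ℂ) := by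
        rw [hαr, hβr, Complex.conj_ofReal, Complex.conj_ofReal]
        have : (y : ℂ) ≠ 0 := by exact_mod_cast hy0
        field_simp
      rw [e1] at h1
      rw [hαr, hβr] at h1
      have h2 : ((y * (Fn S F a a - Fn S F b b) : ℝ) : ℂ) = ((2 * x * Fn S F a b : ℝ) : ℂ) := by
        push_cast
        linear_combination h1
      exact_mod_cast h2
    -- the integer N
    obtain ⟨N, hN⟩ : ∃ N : ℤ, 2 * x = N * y := by
      have h1 := hmomr (fun u => u ^ (G.dist a b))
      have h2 : ∀ z w, Fn S (fun u => u ^ (G.dist a b)) z w = (A ^ (G.dist a b)) z w := by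
        intro z w; rw [S.pow_entry]; rfl
      have h3 : ∀ z w, (A ^ (G.dist a b)) z w = (((B ^ (G.dist a b)) z w : ℤ) : ℝ) := by
        intro z w
        have : A = (Int.castRingHom ℝ).mapMatrix B := hB
        rw [this, ← map_pow]
        rfl
      rw [h2, h2, h2, hAdef, card_walk_dist G hG a b, ← hAdef, h3, h3] at h1
      refine ⟨(B ^ (G.dist a b)) a a - (B ^ (G.dist a b)) b b, ?_⟩
      push_cast
      linarith
    have hN0 : N ≠ 0 := by
      intro h; rw [h] at hN; apply hx0; simp at hN; exact hN
    set σ : ℝ := (1 + x) / y with hσ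
    have hσ1 : σ * y = 1 + x := by rw [hσ]; field_simp
    have hσ2 : σ * x + y = σ := by
      have h1 : (σ * x + y - σ) * y = 0 := by
        linear_combination (x - 1) * hσ1 + hxy
      rcases mul_eq_zero.mp h1 with h | h
      · linarith
      · exact absurd h hy0
    have hσirr : ∀ q : ℚ, σ ≠ q := by
      refine irr σ N hN0 ?_
      have h1 : (σ ^ 2 - (N * σ + 1)) * y = 0 := by
        linear_combination σ * hσ1 + σ * hN - hσ2
      rcases mul_eq_zero.mp h1 with h | h
      · linarith
      · exact absurd h hy0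
    -- eigenvalues of the support
    set P : V → ℝ := fun j => σ * S.U j a + S.U j b with hP
    set Q : V → ℝ := fun j => S.U j a - σ * S.U j b with hQ
    have hEP : ∀ j, P j ≠ 0 → Complex.exp (Complex.I * τ * S.lam j) = 1 := by
      intro j hj
      have h1 : Complex.exp (Complex.I * τ * S.lam j) * (P j : ℂ) = (P j : ℂ) := by
        have h2 : ((σ * (x * S.U j a + y * S.U j b) + (y * S.U j a - x * S.U j b) : ℝ) : ℂ) =
            (P j : ℂ) := by
          congr 1
          rw [hP]
          linear_combination (S.U j a) * hσ2 + (S.U j b) * hσ1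
        have h3 : (P j : ℂ) = σ * S.U j a + S.U j b := by rw [hP]; push_cast; ring
        refine Eq.trans ?_ h2
        rw [h3]
        push_cast
        have h4 := hrel1 j
        have h5 := hrel2 j
        push_cast at h4 h5
        linear_combination (σ : ℂ) * h4 + h5
      have h6 : (P j : ℂ) ≠ 0 := by exact_mod_cast hj
      exact mul_right_cancel₀ h6 (by rw [h1, one_mul])
    have hEQ : ∀ j, Q j ≠ 0 → Complex.exp (Complex.I * τ * S.lam j) = -1 := by
      intro j hj
      have h1 : Complex.exp (Complex.I * τ * S.lam j) * (Q j : ℂ) = -(Q j : ℂ) := by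
        have h2 : ((x * S.U j a + y * S.U j b - σ * (y * S.U j a - x * S.U j b) : ℝ) : ℂ) =
            -(Q j : ℂ) := by
          rw [← Complex.ofReal_neg]
          congr 1
          rw [hQ]
          linear_combination (S.U j b) * hσ2 - (S.U j a) * hσ1
        have h3 : (Q j : ℂ) = S.U j a - σ * S.U j b := by rw [hQ]; push_cast; ring
        refine Eq.trans ?_ h2
        rw [h3]
        push_cast
        have h4 := hrel1 j
        have h5 := hrel2 j
        push_cast at h4 h5
        linear_combination h4 - (σ : ℂ) * h5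
      have h6 : (Q j : ℂ) ≠ 0 := by exact_mod_cast hj
      refine mul_right_cancel₀ h6 ?_
      rw [h1]; ring
    have hden : 1 + σ ^ 2 ≠ 0 := by positivity
    have hUa : ∀ j, S.U j a ≠ 0 → P j ≠ 0 ∨ Q j ≠ 0 := by
      intro j hj
      by_contra hcon
      push Not at hcon
      obtain ⟨h1, h2⟩ := hcon
      have h3 : (1 + σ ^ 2) * S.U j a = σ * P j + Q j := by rw [hP, hQ]; ring
      rw [h1, h2] at h3
      have : (1 + σ ^ 2) * S.U j a = 0 := by linarith
      rcases mul_eq_zero.mp this with h | h
      · exact hden h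
      · exact hj h
    set ω : ℝ := Real.pi / τ with hω
    have hω0 : ω ≠ 0 := by rw [hω]; positivity
    have hlam1 : ∀ j, Complex.exp (Complex.I * τ * S.lam j) = 1 →
        ∃ n : ℤ, S.lam j = ((2 * n : ℤ) : ℝ) * ω := by
      intro j hj
      rw [Complex.exp_eq_one_iff] at hj
      obtain ⟨n, hn⟩ := hj
      refine ⟨n, ?_⟩
      have h1 := congrArg Complex.im hn
      simp at h1
      rw [hω]
      push_cast
      field_simp
      linarith
    have hlam2 : ∀ j, Complex.exp (Complex.I * τ * S.lam j) = -1 →
        ∃ n : ℤ, S.lam j = ((2 * n + 1 : ℤ) : ℝ) * ω := by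
      intro j hj
      have h0 : Complex.exp (Complex.I * τ * S.lam j - Real.pi * Complex.I) = 1 := by
        rw [Complex.exp_sub, hj, Complex.exp_pi_mul_I]; norm_num
      rw [Complex.exp_eq_one_iff] at h0
      obtain ⟨n, hn⟩ := h0
      refine ⟨n, ?_⟩
      have h1 := congrArg Complex.im hn
      simp at h1
      rw [hω]
      push_cast
      field_simp
      linarith
    have hex : ∀ j, ∃ m : ℤ, (S.U j a ≠ 0 → S.lam j = m * ω) ∧ (Q j ≠ 0 → Odd m) ∧
        (P j ≠ 0 → Even m) := by
      intro j
      by_cases hPj : P j = 0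
      · by_cases hQj : Q j = 0
        · refine ⟨0, fun h => ?_, fun h => absurd hQj h, fun h => absurd hPj h⟩
          rcases hUa j h with h | h
          · exact absurd hPj h
          · exact absurd hQj h
        · obtain ⟨n, hn⟩ := hlam2 j (hEQ j hQj)
          exact ⟨2 * n + 1, fun _ => hn, fun _ => ⟨n, rfl⟩, fun h => absurd hPj h⟩
      · obtain ⟨n, hn⟩ := hlam1 j (hEP j hPj)
        refine ⟨2 * n, fun _ => hn, fun hQj => ?_, fun _ => ⟨n, by ring⟩⟩
        exfalso
        have h1 := hEP j hPj
        have h2 := hEQ j hQj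
        rw [h1] at h2
        norm_num at h2
    choose m hm1 hm2 hm3 using hex
    -- Q does not vanish
    obtain ⟨j0, hj0⟩ : ∃ j, Q j ≠ 0 := by
      by_contra hcon
      push Not at hcon
      have h1 : ∑ j, Q j * S.U j a = 1 := by
        have : ∀ j, Q j * S.U j a = S.U j a * S.U j a - σ * (S.U j b * S.U j a) := by
          intro j; rw [hQ]; ring
        simp only [this]
        rw [Finset.sum_sub_distrib, ← Finset.mul_sum, S.compl, S.compl, if_pos rfl,
          if_neg (Ne.symm hab)]
        ring
      simp [hcon] at h1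
    have hodd0 : Odd (m j0) := hm2 j0 hj0
    have hm0 : m j0 ≠ 0 := by
      intro h; rw [h] at hodd0; exact absurd hodd0 (by decide)
    have hUj0 : S.U j0 a ≠ 0 := by
      intro h
      have h1 := hrel1 j0
      rw [h] at h1
      have h2 : x * 0 + y * S.U j0 b = 0 := by
        have : ((x * 0 + y * S.U j0 b : ℝ) : ℂ) = 0 := by rw [← h1]; simp
        exact_mod_cast this
      have h3 : S.U j0 b = 0 := by
        have : y * S.U j0 b = 0 := by linarith
        rcases mul_eq_zero.mp this with h | h
        · exact absurd h hy0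
        · exact h
      apply hj0
      rw [hQ]
      simp [h, h3]
    obtain ⟨ρ, hρ⟩ := rational_sq B hB S a ω m (fun j hj => hm1 j hj) j0 hUj0 hm0
    -- the rational polynomial
    obtain ⟨M, hM⟩ : ∃ M : ℕ, ∀ j, (m j).natAbs ≤ M := by
      refine ⟨∑ j, (m j).natAbs, fun j => ?_⟩
      exact Finset.single_le_sum (f := fun j => (m j).natAbs) (fun _ _ => Nat.zero_le _)
        (Finset.mem_univ j)
    set f : ℚ[X] := X * ∏ n ∈ Finset.Icc 1 M, (X ^ 2 - C ((2 * (n : ℚ)) ^ 2 * ρ)) with hf
    have hfeval : ∀ u : ℝ, (f.map (algebraMap ℚ ℝ)).eval u =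
        u * ∏ n ∈ Finset.Icc 1 M, (u ^ 2 - (2 * (n : ℝ)) ^ 2 * ω ^ 2) := by
      intro u
      rw [hf, Polynomial.map_mul, Polynomial.map_X, Polynomial.eval_mul, Polynomial.eval_X,
        Polynomial.map_prod, Polynomial.eval_prod]
      congr 1
      refine Finset.prod_congr rfl fun n _ => ?_
      rw [Polynomial.map_sub, Polynomial.map_pow, Polynomial.map_X, Polynomial.map_C,
        Polynomial.eval_sub, Polynomial.eval_pow, Polynomial.eval_X, Polynomial.eval_C, hρ]
      simp only [eq_ratCast]
      push_cast
      ring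
    set F : ℝ → ℝ := fun u => (f.map (algebraMap ℚ ℝ)).eval u with hF
    have hFP : ∀ j, F (S.lam j) * P j = 0 := by
      intro j
      by_cases hPj : P j = 0
      · rw [hPj, mul_zero]
      obtain ⟨n, hn⟩ := hlam1 j (hEP j hPj)
      have hle : ∃ k : ℤ, S.lam j = ((2 * k : ℤ) : ℝ) * ω ∧ k.natAbs ≤ M := by
        by_cases hU : S.U j a = 0
        · exfalso
          apply hPj
          have h1 := hrel1 j
          rw [hU] at h1
          have h2 : x * 0 + y * S.U j b = 0 := by
            have : ((x * 0 + y * S.U j b : ℝ) : ℂ) = 0 := by rw [← h1]; simp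
            exact_mod_cast this
          have h3 : S.U j b = 0 := by
            have : y * S.U j b = 0 := by linarith
            rcases mul_eq_zero.mp this with h | h
            · exact absurd h hy0
            · exact h
          rw [hP]
          simp [hU, h3]
        · obtain ⟨k, hk⟩ := hm3 j hPj
          refine ⟨k, ?_, ?_⟩
          · rw [hm1 j hU, hk]; push_cast; ring
          · have := hM j
            omega
      obtain ⟨k, hk1, hk2⟩ := hle
      have : F (S.lam j) = 0 := by
        rw [hF]
        simp only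
        rw [hfeval, hk1]
        by_cases hk0 : k = 0
        · rw [hk0]; simp
        · have : ∏ n ∈ Finset.Icc 1 M, ((((2 * k : ℤ) : ℝ) * ω) ^ 2 - (2 * (n : ℝ)) ^ 2 * ω ^ 2) = 0 := by
            refine Finset.prod_eq_zero (i := k.natAbs) ?_ ?_
            · rw [Finset.mem_Icc]
              constructor
              · omega
              · exact hk2
            · have h1 : ((k.natAbs : ℕ) : ℝ) ^ 2 = (k : ℝ) ^ 2 := by
                rw [Nat.cast_natAbs, Int.cast_abs]
                exact sq_abs _
              push_cast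
              linear_combination (-4 * ω ^ 2) * h1
          rw [this, mul_zero]
      rw [this, zero_mul]
    have hzero : ∀ z, Fn S F a z = 0 := by
      intro z
      obtain ⟨q1, hq1⟩ := Fn_rat B hB S f a z
      obtain ⟨q2, hq2⟩ := Fn_rat B hB S f b z
      have h1 : σ * Fn S F a z + Fn S F b z = 0 := by
        have h2 : ∑ j, (F (S.lam j) * P j) * S.U j z = 0 := by simp [hFP]
        rw [← h2]
        unfold Fn
        rw [Finset.mul_sum, ← Finset.sum_add_distrib]
        refine Finset.sum_congr rfl fun j _ => ?_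
        rw [hP]
        ring
      have hq1' : Fn S F a z = q1 := hq1
      have hq2' : Fn S F b z = q2 := hq2
      by_contra hne
      rw [hq1', hq2'] at h1
      rw [hq1'] at hne
      apply hσirr (-q2 / q1)
      push_cast
      rw [eq_div_iff hne]
      linarith
    have h1 := eq_zero_of_Fn S F a hzero j0
    rcases mul_eq_zero.mp h1 with h2 | h2
    · rw [hF] at h2
      simp only at h2
      rw [hfeval, hm1 j0 hUj0] at h2
      rcases mul_eq_zero.mp h2 with h3 | h3
      · rcases mul_eq_zero.mp h3 with h4 | h4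
        · apply hm0; exact_mod_cast h4
        · exact hω0 h4
      · rw [Finset.prod_eq_zero_iff] at h3
        obtain ⟨n, _, hn⟩ := h3
        have h4 : (((m j0 : ℤ) : ℝ) ^ 2 - (2 * (n : ℝ)) ^ 2) * ω ^ 2 = 0 := by
          linear_combination hn
        rcases mul_eq_zero.mp h4 with h5 | h5
        · have h6 : (m j0) ^ 2 = (2 * (n : ℤ)) ^ 2 := by
            have : ((m j0 : ℤ) : ℝ) ^ 2 = (2 * (n : ℝ)) ^ 2 := by linarith
            exact_mod_cast this
          have h7 : Odd ((m j0) ^ 2) := hodd0.pow
          rw [h6] at h7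
          have h8 : Even ((2 * (n : ℤ)) ^ 2) := by
            refine Even.pow_of_ne_zero ?_ two_ne_zero
            exact even_two_mul _
          exact (Int.not_even_iff_odd.mpr h7) h8
        · exact hω0 (pow_eq_zero_iff (two_ne_zero) |>.mp h5)
    · exact hUj0 h2
  · -- the vertices are in different parts: cospectral
    have hβre : β.re = 0 := by
      have h1 := hsymc b
      rw [hc b, if_neg hab, if_pos rfl, hsab] at h1
      linarith
    refine charpoly_minor_eq S a b fun F => ?_
    have h1 := hmom F
    have h2 : starRingEnd ℂ β = -β := Complex.ext (by simp [hβre]) (by simp)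
    have h3 : starRingEnd ℂ α = α := by rw [hαr, Complex.conj_ofReal]
    have h4 : starRingEnd ℂ α * β / starRingEnd ℂ β = -α := by
      rw [h2, h3]; field_simp
    rw [h4] at h1
    have h5 : (β : ℂ) * ((Fn S F a a : ℂ) - Fn S F b b) = 0 := by rw [h1]; ring
    rcases mul_eq_zero.mp h5 with h6 | h6
    · exact absurd h6 hβ
    · have : (Fn S F a a : ℂ) = Fn S F b b := sub_eq_zero.mp h6
      exact_mod_cast this

/-- In a tree, two vertices with proper fractional revival between them are cospectral. -/
theorem result : ∀ (V : Type) [Fintype V] [DecidableEq V] (G : SimpleGraph V)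
    [DecidableRel G.Adj], G.IsTree → ∀ a b : V, ProperFR G a b → Cospectral G a b := by
  intro V _ _ G _ hG a b ⟨hab, τ, hτ, α, β, hα, hβ, hexp⟩
  have h := main G hG a b hab τ hτ α β hα hβ hexp
  exact h

end Pool.Agent.Results.MP_33c96f_co.TreeCospectral
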